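import Pool.Agent.MP_46692b_an.H78.Spec

/-!
Convergent Puiseux expansions of the roots of a polynomial in two variables.
-/

open Filter Topology Set Metric Polynomial Function Function.Periodic

namespace Pool.Agent.MP_46692b_an.H66

open Pool.Agent.MP_46692b_an

/-- Near `p` the relation `Z` is the union of the graphs of finitely many pairwise distinct
holomorphic functions. -/
def Br (Z : ℂ → ℂ → Prop) (p : ℂ) : Prop :=
  ∃ (U : Set ℂ) (s : Finset ℂ) (A : ℂ → ℂ → ℂ), IsOpen U ∧ p ∈ U ∧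
    (∀ i ∈ s, DifferentiableOn ℂ (A i) U) ∧
    (∀ z ∈ U, ∀ i ∈ s, ∀ j ∈ s, i ≠ j → A i z ≠ A j z) ∧
    ∀ z ∈ U, ∀ w, Z z w ↔ ∃ i ∈ s, w = A i z

theorem branches (Q : ℂ[X][X]) (D : ℂ[X])
    (h : ∀ z, D.eval z ≠ 0 → (Q.map (evalRingHom z)).Separable ∧
      (Q.map (evalRingHom z)).natDegree = Q.natDegree) {p : ℂ} (hp : D.eval p ≠ 0) :
    Br (fun z w => Q.evalEval z w = 0) p := by
  classical
  obtain ⟨hsep, hdeg⟩ := h p hp
  set s := (Q.map (evalRingHom p)).roots.toFinset with hs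
  have hcard : s.card = Q.natDegree := by
    rw [hs, Multiset.toFinset_card_of_nodup (nodup_roots hsep), IsAlgClosed.card_roots_eq_natDegree,
      hdeg]
  have hbr : ∀ w, w ∈ s → ∃ A : ℂ → ℂ, A p = w ∧
      ∀ᶠ z in 𝓝 p, DifferentiableAt ℂ A z ∧ Q.evalEval z (A z) = 0 := by
    intro w hw
    rw [hs, Multiset.mem_toFinset, mem_roots hsep.ne_zero] at hw
    apply H26.exists_branch
    · rw [← map_evalRingHom_eval]
      exact hw
    · exact hsep.eval₂_derivative_ne_zero (RingHom.id ℂ) hw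
  choose! A hA1 hA2 using hbr
  have hev : ∀ᶠ z in 𝓝 p, D.eval z ≠ 0 ∧
      (∀ i ∈ s, DifferentiableAt ℂ (A i) z ∧ Q.evalEval z (A i z) = 0) ∧
      ∀ i ∈ s, ∀ j ∈ s, i ≠ j → A i z ≠ A j z := by
    refine (D.continuous.continuousAt.eventually_ne hp).and (Eventually.and ?_ ?_)
    · rw [eventually_all_finset]
      exact hA2
    · rw [eventually_all_finset]
      intro i hi
      rw [eventually_all_finset]
      intro j hj
      by_cases hij : i = j
      · filter_upwards with z h using absurd hij h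
      · have c1 := (hA2 i hi).self_of_nhds.1.continuousAt
        have c2 := (hA2 j hj).self_of_nhds.1.continuousAt
        have := (c1.sub c2).eventually_ne (y := 0) (by
          simp only [Pi.sub_apply, hA1 i hi, hA1 j hj]
          exact sub_ne_zero.2 hij)
        filter_upwards [this] with z hz _
        exact sub_ne_zero.1 hz
  obtain ⟨U, hU, hUo, hpU⟩ := _root_.mem_nhds_iff.1 hev
  refine ⟨U, s, A, hUo, hpU, fun i hi z hz => ((hU hz).2.1 i hi).1.differentiableWithinAt,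
    fun z hz => (hU hz).2.2, fun z hz w => ⟨fun hw => ?_, ?_⟩⟩
  swap
  · rintro ⟨i, hi, rfl⟩
    exact ((hU hz).2.1 i hi).2
  obtain ⟨h1, h2, h3⟩ := hU hz
  obtain ⟨hsep', hdeg'⟩ := h z h1
  have hsub : s.image (fun i => A i z) ⊆ (Q.map (evalRingHom z)).roots.toFinset := by
    intro x hx
    obtain ⟨i, hi, rfl⟩ := Finset.mem_image.1 hx
    rw [Multiset.mem_toFinset, mem_roots hsep'.ne_zero, IsRoot.def, map_evalRingHom_eval]
    exact (h2 i hi).2
  have hc1 : (s.image (fun i => A i z)).card = s.card := by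
    apply Finset.card_image_of_injOn
    intro i hi j hj hij
    by_contra hne
    exact h3 i hi j hj hne hij
  have hc2 : (Q.map (evalRingHom z)).roots.toFinset.card ≤ (s.image (fun i => A i z)).card := by
    rw [hc1, hcard, ← hdeg']
    exact (Multiset.toFinset_card_le _).trans (card_roots' _)
  have heq := Finset.eq_of_subset_of_card_le hsub hc2
  have hw' : w ∈ (Q.map (evalRingHom z)).roots.toFinset := by
    rw [Multiset.mem_toFinset, mem_roots hsep'.ne_zero, IsRoot.def, map_evalRingHom_eval]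
    exact hw
  rw [← heq] at hw'
  obtain ⟨i, hi, rfl⟩ := Finset.mem_image.1 hw'
  exact ⟨i, hi, rfl⟩

theorem cover {Z : ℂ → ℂ → Prop} {S : Set ℂ} (h : ∀ p ∈ S, Br Z p) :
    IsCoveringMapOn (fun e : {x : ℂ × ℂ // Z x.1 x.2} => e.1.1) S := by
  intro p hp
  obtain ⟨U, s, A, hU, hpU, hA, hne, hZ⟩ := h p hp
  rcases s.eq_empty_or_nonempty with rfl | ⟨i0, hi0⟩
  · refine IsEvenlyCovered.to_isEvenlyCovered_preimage
      (IsEvenlyCovered.of_preimage_eq_empty Empty (hU.mem_nhds hpU) ?_)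
    refine eq_empty_of_forall_notMem fun e he => ?_
    simpa using (hZ _ he _).1 e.2
  have : Nonempty {x : ℂ × ℂ // Z x.1 x.2} := ⟨⟨(p, A i0 p), (hZ p hpU _).2 ⟨i0, hi0, rfl⟩⟩⟩
  have : Nonempty s := ⟨⟨i0, hi0⟩⟩
  have c1 : Continuous fun e : {x : ℂ × ℂ // Z x.1 x.2} => e.1.1 := by fun_prop
  have c2 : Continuous fun e : {x : ℂ × ℂ // Z x.1 x.2} => e.1.2 := by fun_prop
  let V : s → Set {x : ℂ × ℂ // Z x.1 x.2} := fun i => {e | e.1.1 ∈ U ∧ e.1.2 = A i e.1.1}
  have hV : ∀ i, IsOpen (V i) := by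
    intro i
    have e : V i = (fun e => e.1.1) ⁻¹' U ∩ ⋂ j ∈ s.erase i,
        ((fun e => e.1.1) ⁻¹' U ∩ (fun e => e.1.2 - A j e.1.1) ⁻¹' {0}ᶜ) := by
      ext e
      simp only [V, Set.mem_ofPred_eq, mem_inter_iff, mem_preimage, mem_iInter, Finset.mem_erase,
        mem_compl_iff, mem_singleton_iff, sub_eq_zero]
      refine and_congr_right fun he => ⟨fun h1 j hj => ⟨he, ?_⟩, fun h1 => ?_⟩
      · rw [h1]
        exact hne _ he _ i.2 _ hj.2 hj.1.symm
      · obtain ⟨j, hj, h2⟩ := (hZ _ he _).1 e.2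
        by_cases hji : j = i
        · exact hji ▸ h2
        · exact absurd h2 (h1 j ⟨hji, hj⟩).2
    rw [e]
    refine (hU.preimage c1).inter (isOpen_biInter_finset fun j hj => ?_)
    refine ContinuousOn.isOpen_inter_preimage ?_ (hU.preimage c1) isOpen_compl_singleton
    exact c2.continuousOn.sub ((hA j (Finset.mem_of_mem_erase hj)).continuousOn.comp
      c1.continuousOn fun e he => he)
  refine IsEvenlyCovered.to_isEvenlyCovered_preimage (IsEvenlyCovered.of_trivialization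
    (t := hU.trivializationDiscrete V U (fun i W hW => ⟨fun hWo => ?_, fun hWo => ?_⟩)
      (fun i => ?_) (fun i => ?_) ?_ ?_) hpU)
  · exact (hWo.preimage c1).inter (hV i)
  · obtain ⟨O, hO, hOe⟩ := isOpen_induced_iff.1 hWo
    have e : W = U ∩ (fun z => (z, A i z)) ⁻¹' O := by
      ext z
      constructor
      · intro hz
        refine ⟨hW hz, ?_⟩
        have : (⟨(z, A i z), (hZ z (hW hz) _).2 ⟨i, i.2, rfl⟩⟩ : {x : ℂ × ℂ // Z x.1 x.2}) ∈
            Subtype.val ⁻¹' O := by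
          rw [hOe]
          exact ⟨hz, hW hz, rfl⟩
        exact this
      · rintro ⟨hz, hzO⟩
        have : (⟨(z, A i z), (hZ z hz _).2 ⟨i, i.2, rfl⟩⟩ : {x : ℂ × ℂ // Z x.1 x.2}) ∈
            Subtype.val ⁻¹' O := hzO
        rw [hOe] at this
        exact this.1
    rw [e]
    exact (continuousOn_id.prodMk (hA i i.2).continuousOn).isOpen_inter_preimage hU hO
  · intro e he e' he' hee
    refine Subtype.ext (Prod.ext hee ?_)
    rw [he.2, he'.2, show e.1.1 = e'.1.1 from hee]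
  · intro z hz
    exact ⟨⟨(z, A i z), (hZ z hz _).2 ⟨i, i.2, rfl⟩⟩, ⟨hz, rfl⟩, rfl⟩
  · intro i j hij
    refine Set.disjoint_left.2 fun e hi hj => ?_
    exact hne _ hi.1 _ i.2 _ j.2 (fun h => hij (Subtype.ext h)) (hi.2.symm.trans hj.2)
  · intro e he
    obtain ⟨j, hj, h2⟩ := (hZ _ he _).1 e.2
    exact mem_iUnion.2 ⟨⟨j, hj⟩, he, h2⟩

theorem global {Z : ℂ → ℂ → Prop} {S : Set ℂ} (h : ∀ p ∈ S, Br Z p) (f : C(ℂ, ℂ))
    (hf : ∀ t, f t ∈ S) (t0 w : ℂ) (hw : Z (f t0) w) :
    ∃! G : C(ℂ, ℂ), G t0 = w ∧ ∀ t, Z (f t) (G t) := by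
  obtain ⟨F, ⟨hF1, hF2⟩, hF⟩ := (cover h).existsUnique_continuousMap_lifts f (a₀ := t0)
    (e₀ := ⟨(f t0, w), hw⟩) rfl hf
  refine ⟨⟨fun t => (F t).1.2, by fun_prop⟩, ⟨by simp [hF1], fun t => ?_⟩, ?_⟩
  · have := (F t).2
    rwa [show (F t).1.1 = f t from congrFun hF2 t] at this
  · rintro G ⟨hG1, hG2⟩
    have := hF ⟨fun t => ⟨(f t, G t), hG2 t⟩, by fun_prop⟩ ⟨Subtype.ext (by simp [hG1]), rfl⟩
    ext t
    rw [← this]
    rfl

theorem diff_of_root {Z : ℂ → ℂ → Prop} {f G : ℂ → ℂ} {t : ℂ} (h : Br Z (f t))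
    (hf : DifferentiableAt ℂ f t) (hG : Continuous G) (hZ : ∀ t, Z (f t) (G t)) :
    DifferentiableAt ℂ G t := by
  obtain ⟨U, s, A, hU, hpU, hA, hne, hZ'⟩ := h
  obtain ⟨i, hi, e⟩ := (hZ' _ hpU _).1 (hZ t)
  have hd : ∀ j ∈ s, DifferentiableAt ℂ (fun x => A j (f x)) t := fun j hj =>
    ((hA j hj).differentiableAt (hU.mem_nhds hpU)).comp t hf
  refine (hd i hi).congr_of_eventuallyEq ?_
  have h1 : ∀ᶠ x in 𝓝 t, ∀ j ∈ s.erase i, G x - A j (f x) ≠ 0 := by
    rw [eventually_all_finset]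
    intro j hj
    obtain ⟨hji, hj⟩ := Finset.mem_erase.1 hj
    refine (hG.continuousAt.sub (hd j hj).continuousAt).eventually_ne ?_
    change G t - A j (f t) ≠ 0
    rw [e, sub_ne_zero]
    exact hne _ hpU _ hi _ hj hji.symm
  filter_upwards [h1, hf.continuousAt.preimage_mem_nhds (hU.mem_nhds hpU)] with x hx hxU
  obtain ⟨j, hj, e'⟩ := (hZ' _ hxU _).1 (hZ x)
  by_cases hji : j = i
  · exact hji ▸ e'
  · exact absurd (sub_eq_zero.2 e') (hx j (Finset.mem_erase.2 ⟨hji, hj⟩))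

theorem root_bound (Q : ℂ[X][X]) (hQ : Q ≠ 0) (q : ℂ) : ∃ (m : ℕ) (C : ℝ),
    ∀ᶠ u in 𝓝[≠] (0 : ℂ), ∀ w, Q.evalEval (q + u) w = 0 → ‖w * u ^ m‖ ≤ C := by
  obtain ⟨g, hg, hnd⟩ := exists_eq_pow_rootMultiplicity_mul_and_not_dvd Q.leadingCoeff
    (leadingCoeff_ne_zero.2 hQ) q
  set m := rootMultiplicity q Q.leadingCoeff
  have hgq : g.eval q ≠ 0 := fun h => hnd (dvd_iff_isRoot.2 h)
  let K : ℂ → ℝ := fun u => (∑ i ∈ Finset.range Q.natDegree, ‖(Q.coeff i).eval (q + u)‖ +
    ‖Q.leadingCoeff.eval (q + u)‖) / ‖g.eval (q + u)‖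
  have hc : ∀ a : ℂ[X], Continuous fun u => ‖a.eval (q + u)‖ := fun a =>
    (a.continuous.comp (continuous_const.add continuous_id)).norm
  have hK : ContinuousAt K 0 :=
    ((continuous_finsetSum _ fun i _ => hc _).add (hc _)).continuousAt.div (hc g).continuousAt
      (by simpa using hgq)
  have h1 : ∀ᶠ u in 𝓝 (0 : ℂ), K u < K 0 + 1 := hK.eventually_lt_const (lt_add_one _)
  have h2 : ∀ᶠ u in 𝓝 (0 : ℂ), ‖g.eval (q + u)‖ ≠ 0 :=
    (hc g).continuousAt.eventually_ne (by simpa using hgq)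
  refine ⟨m, K 0 + 1, ?_⟩
  filter_upwards [nhdsWithin_le_nhds h1, nhdsWithin_le_nhds h2, self_mem_nhdsWithin]
    with u hu hgu hu0 w hw
  have hl : Q.leadingCoeff.eval (q + u) = u ^ m * g.eval (q + u) := by
    conv_lhs => rw [hg]
    simp
  have hl0 : Q.leadingCoeff.eval (q + u) ≠ 0 := by
    rw [hl]
    exact mul_ne_zero (pow_ne_zero _ hu0) (norm_ne_zero_iff.1 hgu)
  have hdeg : (Q.map (evalRingHom (q + u))).natDegree = Q.natDegree :=
    natDegree_map_of_leadingCoeff_ne_zero _ hl0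
  have hlc : (Q.map (evalRingHom (q + u))).leadingCoeff = Q.leadingCoeff.eval (q + u) :=
    leadingCoeff_map_of_leadingCoeff_ne_zero _ hl0
  have hp0 : Q.map (evalRingHom (q + u)) ≠ 0 := leadingCoeff_ne_zero.1 (hlc ▸ hl0)
  have hr : (Q.map (evalRingHom (q + u))).IsRoot w := by
    rw [IsRoot.def, map_evalRingHom_eval]
    exact hw
  have hb := hr.norm_lt_cauchyBound hp0
  rw [cauchyBound, hdeg, hlc] at hb
  have hs : (Finset.range Q.natDegree).sup (fun i => ‖(Q.map (evalRingHom (q + u))).coeff i‖₊) ≤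
      ∑ i ∈ Finset.range Q.natDegree, ‖(Q.coeff i).eval (q + u)‖₊ := by
    refine Finset.sup_le fun i hi => ?_
    rw [coeff_map]
    exact Finset.single_le_sum (f := fun i => ‖(Q.coeff i).eval (q + u)‖₊)
      (fun _ _ => zero_le) hi
  have hb' : ‖w‖ ≤ (∑ i ∈ Finset.range Q.natDegree, ‖(Q.coeff i).eval (q + u)‖) /
      ‖Q.leadingCoeff.eval (q + u)‖ + 1 := by
    have := hb.le.trans (add_le_add_left (div_le_div_of_nonneg_right hs zero_le) 1)
    have := NNReal.coe_le_coe.2 this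
    simpa [NNReal.coe_sum] using this
  have hpos : 0 < ‖Q.leadingCoeff.eval (q + u)‖ := norm_pos_iff.2 hl0
  refine le_trans ?_ hu.le
  rw [le_div_iff₀ (lt_of_le_of_ne (norm_nonneg _) hgu.symm), ← norm_mul, mul_assoc, ← hl, norm_mul]
  rw [div_add_one hpos.ne', le_div_iff₀ hpos] at hb'
  exact hb'

theorem qParam_pow {N : ℕ} (hN : N ≠ 0) (t : ℂ) : qParam N t ^ N = qParam 1 t := by
  have : (N : ℂ) ≠ 0 := Nat.cast_ne_zero.2 hN
  rw [qParam, qParam, ← Complex.exp_nat_mul]
  congr 1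
  push_cast
  field_simp

theorem qParam_per {h : ℝ} (hh : h ≠ 0) : Periodic (qParam h) (h : ℂ) := by
  intro t
  have : (h : ℂ) ≠ 0 := Complex.ofReal_ne_zero.2 hh
  rw [qParam, qParam, show 2 * Real.pi * Complex.I * (t + h) / h =
    2 * Real.pi * Complex.I * t / h + 2 * Real.pi * Complex.I by field_simp,
    Complex.exp_add, Complex.exp_two_pi_mul_I, mul_one]

theorem puiseux : H78.PuiseuxStmt := by
  classical
  intro P hP q
  obtain ⟨Q, D, hD, h⟩ := H26.reduce_separable P hP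
  have hbr : ∀ p ∈ {z | D.eval z ≠ 0}, Br (fun z w => Q.evalEval z w = 0) p := fun p hp =>
    branches Q D (fun z hz => ⟨(h z hz).1, (h z hz).2.1⟩) hp
  have hD1 : ∀ᶠ u in 𝓝[≠] (0 : ℂ), D.eval (q + u) ≠ 0 := by
    have hfin : ({u | D.eval (q + u) = 0} \ {0}).Finite := by
      refine Finite.sdiff (Finite.of_finite_image (f := fun u => q + u) ?_
        (add_right_injective q).injOn)
      exact (finite_setOfPred_isRoot hD).subset (by rintro _ ⟨u, hu, rfl⟩; exact hu)
    have := hfin.isClosed.isOpen_compl.mem_nhds (show (0 : ℂ) ∈ _ from fun h => h.2 rfl)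
    filter_upwards [nhdsWithin_le_nhds this, self_mem_nhdsWithin] with u hu hu0 h0
    exact hu ⟨h0, hu0⟩
  obtain ⟨T, hT⟩ : ∃ T : ℝ, ∀ t : ℂ, T ≤ t.im → D.eval (q + qParam 1 t) ≠ 0 := by
    have := (qParam_tendsto one_pos).eventually hD1
    rw [eventually_comap, eventually_atTop] at this
    obtain ⟨T, hT⟩ := this
    exact ⟨T, fun t ht => hT _ ht t rfl⟩
  let ρ : ℂ → ℂ := fun t => t.re + (max t.im T : ℝ) * Complex.I
  have hρ : ∀ t : ℂ, T ≤ t.im → ρ t = t := fun t ht => by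
    simp only [ρ, max_eq_left ht, Complex.re_add_im]
  let f : C(ℂ, ℂ) := ⟨fun t => q + qParam 1 (ρ t), by fun_prop⟩
  have hf : ∀ t, f t ∈ {z | D.eval z ≠ 0} := fun t => hT _ (by simp [ρ])
  have hf1 : ∀ t, f (t + 1) = f t := fun t => by
    have := qParam_per one_ne_zero (ρ t)
    rw [show ρ t + ((1 : ℝ) : ℂ) = ρ (t + 1) by simp [ρ]; ring] at this
    exact congrArg (q + ·) this
  have hf2 : ∀ t, f (t - 1) = f t := fun t => by rw [← hf1, sub_add_cancel]
  let R := {G : C(ℂ, ℂ) // ∀ t, Q.evalEval (f t) (G t) = 0}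
  have huniq : ∀ (G G' : R) (t : ℂ), G.1 t = G'.1 t → G = G' := fun G G' t e =>
    Subtype.ext ((global hbr f hf t _ (G.2 t)).unique ⟨rfl, G.2⟩ ⟨e.symm, G'.2⟩)
  have : Finite R := by
    obtain ⟨U, s, A, -, hpU, -, -, hZ⟩ := hbr _ (hf 0)
    refine Finite.of_injective
      (fun G : R => (⟨G.1 0, ?_⟩ : s.image fun i => A i (f 0))) fun G G' e => ?_
    · obtain ⟨i, hi, e⟩ := (hZ _ hpU _).1 (G.2 0)
      exact Finset.mem_image.2 ⟨i, hi, e.symm⟩
    · exact huniq G G' 0 (congrArg Subtype.val e)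
  let σ : Equiv.Perm R :=
    { toFun := fun G : R => ⟨⟨fun t => G.1 (t + 1),
        G.1.continuous.comp (continuous_id.add continuous_const)⟩, fun t => by
        have := Subtype.property G (t + 1)
        rwa [hf1 t] at this⟩
      invFun := fun G : R => ⟨⟨fun t => G.1 (t - 1),
        G.1.continuous.comp (continuous_id.sub continuous_const)⟩, fun t => by
        have := Subtype.property G (t - 1)
        rwa [hf2 t] at this⟩
      left_inv := fun G => by ext t; simp
      right_inv := fun G => by ext t; simp }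
  have hσ : ∀ (n : ℕ) (G : R) (t : ℂ), ((σ ^ n) G).1 t = G.1 (t + n) := by
    intro n
    induction n with
    | zero => intro G t; simp
    | succ n ih =>
      intro G t
      rw [pow_succ, Equiv.Perm.mul_apply, ih]
      change G.1 (t + n + 1) = _
      push_cast
      rw [add_assoc]
  set N := orderOf σ with hN
  have hN0 : 0 < N := orderOf_pos σ
  have hN1 : (0 : ℝ) < N := Nat.cast_pos.2 hN0
  have hQ : Q ≠ 0 := by
    rintro rfl
    simpa using (h _ (hf 0)).1.ne_zero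
  obtain ⟨m, C, hC⟩ := root_bound Q hQ q
  let F : R → ℂ → ℂ := fun G t => G.1 t * qParam N t ^ (N * m)
  have hper : ∀ G, Periodic (F G) ((N : ℝ) : ℂ) := fun G t => by
    have := hσ N G t
    rw [hN, pow_orderOf_eq_one, ← hN] at this
    simp only [F, qParam_per hN1.ne' t]
    rw [Complex.ofReal_natCast, ← this]
    rfl
  have hev : ∀ᶠ t : ℂ in comap Complex.im atTop, T < t.im :=
    tendsto_comap.eventually (eventually_gt_atTop T)
  have hhol : ∀ G, ∀ᶠ t in comap Complex.im atTop, DifferentiableAt ℂ (F G) t := fun G => by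
    filter_upwards [hev] with t ht
    refine (diff_of_root (Z := fun z w => Q.evalEval z w = 0) (f := f) (hbr _ (hf t)) ?_
      G.1.continuous G.2).mul ((differentiable_qParam t).pow _)
    refine DifferentiableAt.congr_of_eventuallyEq (f := fun t => q + qParam 1 t)
      ((differentiable_qParam t).const_add q) ?_
    filter_upwards [Complex.continuous_im.continuousAt.eventually_const_lt ht] with x hx
    change q + qParam 1 (ρ x) = _
    rw [hρ x hx.le]
  have hbd : ∀ G, BoundedAtFilter (comap Complex.im atTop) (F G) := fun G => by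
    refine Asymptotics.IsBigO.of_bound C ?_
    filter_upwards [hev, (qParam_tendsto one_pos).eventually hC] with t ht h1
    have := G.2 t
    change Q.evalEval (q + qParam 1 (ρ t)) _ = 0 at this
    rw [hρ t ht.le] at this
    simpa [F, pow_mul, qParam_pow hN0.ne'] using h1 _ this
  have := Fintype.ofFinite R
  have h1 : ∀ᶠ s in 𝓝 (0 : ℂ), (∀ G, DifferentiableAt ℂ (cuspFunction N (F G)) s) ∧
      (s ≠ 0 → T < (invQParam N s).im) := by
    refine Eventually.and (eventually_all.2 fun G => ?_) ?_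
    · have := eventually_nhdsWithin_iff.1
        (eventually_differentiableAt_cuspFunction_nhds_ne_zero hN1 (hper G) (hhol G))
      filter_upwards [this] with s hs
      by_cases h0 : s = 0
      · exact h0 ▸ differentiableAt_cuspFunction_zero hN1 (hper G) (hhol G) (hbd G)
      · exact hs h0
    · exact eventually_nhdsWithin_iff.1 ((invQParam_tendsto hN1).eventually hev)
  obtain ⟨r, hr, hball⟩ := Metric.eventually_nhds_iff_ball.1 h1
  let e := (Fintype.equivFin R).symm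
  have hval : ∀ G, ∀ s : ℂ, s ≠ 0 →
      cuspFunction N (F G) s = G.1 (invQParam N s) * s ^ (N * m) := fun G s hs => by
    rw [cuspFunction_eq_of_nonzero _ _ hs]
    simp only [F, qParam_right_inv hN1.ne' hs]
  refine ⟨N, N * m, _, r, fun i => cuspFunction N (F (e i)), hN0, hr,
    fun i s hs => ((hball s hs).1 _).differentiableWithinAt, fun s _ hs0 i j hij hb => ?_,
    fun s hs hs0 w hw => ?_⟩
  · simp only [hval _ s hs0] at hb
    exact hij (e.injective (huniq _ _ _ (mul_right_cancel₀ (pow_ne_zero _ hs0) hb)))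
  · have hfs : f (invQParam N s) = q + s ^ N := by
      change q + qParam 1 (ρ _) = _
      rw [hρ _ ((hball s hs).2 hs0).le, ← qParam_pow hN0.ne', qParam_right_inv hN1.ne' hs0]
    have hw' := (h _ (hf (invQParam N s))).2.2 w (hfs ▸ hw)
    obtain ⟨G, ⟨hG1, hG2⟩, -⟩ := global hbr f hf _ w hw'
    refine ⟨e.symm ⟨G, hG2⟩, ?_⟩
    simp only [Equiv.apply_symm_apply, hval _ s hs0, hG1]
    rw [mul_div_cancel_right₀ _ (pow_ne_zero _ hs0)]

end Pool.Agent.MP_46692b_an.H66
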